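import Mathlib

/- An abstract two-place comparison for field extensions, from a dimension inequality. -/

namespace Pool.Agent.MP_1c76f0_nt

open Module MvPolynomial Set Submodule Filter Topology

section one

variable {K E ι : Type} [Field K] [Field E] [Algebra K E] [Fintype ι]

/-- monomial with exponents in a box -/
noncomputable def mon (K : Type) [Field K] {ι : Type} [Fintype ι] {n : ℕ} (b : ι → Fin n) :
    MvPolynomial ι K :=
  monomial (Finsupp.equivFunOnFinite.symm fun i => (b i : ℕ)) 1

lemma mem_span_mon {p : MvPolynomial ι K} {n : ℕ} (hp : ∀ s ∈ p.support, ∀ i, s i ≤ n) :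
    p ∈ span K (range (mon K (ι := ι) (n := n + 1))) := by
  rw [p.as_sum]
  refine sum_mem fun s hs => ?_
  have e : monomial s (coeff s p) = coeff s p • mon K (ι := ι) (n := n + 1)
      (fun i => ⟨s i, Nat.lt_succ_of_le (hp s hs i)⟩) := by
    simp [mon, smul_monomial]
  rw [e]
  exact smul_mem _ _ (subset_span (mem_range_self _))

lemma mon_mul_mem {p : MvPolynomial ι K} {c d : ℕ} (hp : p.totalDegree ≤ c) (b : ι → Fin (d + 1)) :
    mon K b * p ∈ span K (range (mon K (ι := ι) (n := d + c + 1))) := by
  classical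
  refine mem_span_mon fun s hs i => ?_
  obtain ⟨s1, h1, s2, h2, rfl⟩ := Finset.mem_add.1 (support_mul _ _ hs)
  have h3 : s1 = _ := Finset.mem_singleton.1 (support_monomial_subset h1)
  have h4 : s2 i ≤ c := ((monomial_le_degreeOf i h2).trans (degreeOf_le_totalDegree p i)).trans hp
  have h5 := (b i).2
  simp only [h3, Finsupp.add_apply, Finsupp.equivFunOnFinite_symm_apply_apply]
  omega

lemma mon_indep (n : ℕ) : LinearIndependent K (mon K (ι := ι) (n := n)) := by
  have h := (basisMonomials ι K).linearIndependent.comp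
    (fun b : ι → Fin n => (Finsupp.equivFunOnFinite.symm fun i => (b i : ℕ) : ι →₀ ℕ))
    (fun b b' h => funext fun i => Fin.ext (congrFun (Finsupp.equivFunOnFinite.symm.injective h) i))
  have e : mon K (ι := ι) (n := n) = basisMonomials ι K ∘
      fun b : ι → Fin n => (Finsupp.equivFunOnFinite.symm fun i => (b i : ℕ) : ι →₀ ℕ) := by
    ext1 b
    simp [mon]
  rw [e]
  exact h

lemma ratio_tendsto (c m : ℕ) :
    Tendsto (fun d : ℕ => (((d : ℝ) + c + 1) / (d + 1)) ^ m) atTop (𝓝 1) := by
  have h1 : Tendsto (fun d : ℕ => 1 + (c : ℝ) * (1 / ((d : ℝ) + 1))) atTop (𝓝 (1 + c * 0)) :=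
    tendsto_const_nhds.add (tendsto_one_div_add_atTop_nhds_zero_nat.const_mul _)
  have h2 := h1.pow m
  simp only [mul_zero, add_zero, one_pow] at h2
  refine h2.congr fun d => ?_
  congr 1
  field_simp
  ring

lemma le_of_box {a b : ℝ} {c m : ℕ}
    (h : ∀ d : ℕ, a * ((d : ℝ) + 1) ^ m ≤ b * ((d : ℝ) + c + 1) ^ m) : a ≤ b := by
  have h1 := (ratio_tendsto c m).const_mul b
  rw [mul_one] at h1
  refine ge_of_tendsto' h1 fun d => ?_
  rw [div_pow, ← mul_div_assoc, le_div_iff₀ (by positivity)]
  exact h d

lemma inj_of_dim (z : ι → E) {θ : ℝ} (hθ : 0 < θ)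
    (h : ∀ d : ℕ, θ * ((d : ℝ) + 1) ^ Fintype.card ι ≤
      finrank K (span K (range fun b : ι → Fin (d + 1) => aeval z (mon K b)))) :
    Function.Injective (aeval z : MvPolynomial ι K →ₐ[K] E) := by
  classical
  rw [injective_iff_map_eq_zero]
  intro G hG
  by_contra hG0
  set c := G.totalDegree
  have key : ∀ d : ℕ, 1 * ((d : ℝ) + 1) ^ Fintype.card ι ≤
      (1 - θ) * ((d : ℝ) + c + 1) ^ Fintype.card ι := by
    intro d
    let V := span K (range (mon K (ι := ι) (n := d + c + 1)))
    have : FiniteDimensional K V := FiniteDimensional.span_of_finite K (finite_range _)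
    let f : V →ₗ[K] E := (aeval z : MvPolynomial ι K →ₐ[K] E).toLinearMap.domRestrict V
    have h1 := f.finrank_range_add_finrank_ker
    have h2 : finrank K V ≤ (d + c + 1) ^ Fintype.card ι := by
      simpa [Set.finrank] using finrank_range_le_card (R := K) (mon K (ι := ι) (n := d + c + 1))
    have h3 : LinearMap.range f =
        span K (range fun b : ι → Fin (d + c + 1) => aeval z (mon K b)) := by
      rw [LinearMap.range_domRestrict, map_span, ← range_comp]
      rfl
    let g : (ι → Fin (d + 1)) → LinearMap.ker f := fun b =>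
      ⟨⟨mon K b * G, mon_mul_mem le_rfl b⟩, by simp [f, hG]⟩
    have h4 : LinearIndependent K g := by
      refine LinearIndependent.of_comp (V.subtype ∘ₗ (LinearMap.ker f).subtype) ?_
      exact (mon_indep (K := K) (ι := ι) (d + 1)).map' (LinearMap.mulRight K G)
        (LinearMap.ker_eq_bot.2 (mul_left_injective₀ hG0))
    have h5 := h4.fintype_card_le_finrank
    simp only [Fintype.card_fun, Fintype.card_fin] at h5
    have h6 := h (d + c)
    rw [← h3] at h6
    have h7 : finrank K (LinearMap.range f) + (d + 1) ^ Fintype.card ι ≤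
        (d + c + 1) ^ Fintype.card ι := by omega
    have h8 : (finrank K (LinearMap.range f) : ℝ) + ((d : ℝ) + 1) ^ Fintype.card ι ≤
        ((d : ℝ) + c + 1) ^ Fintype.card ι := by exact_mod_cast h7
    push_cast at h6
    linarith
  have := le_of_box key
  linarith

lemma rank_of_dim (z : ι → E) [Algebra (FractionRing (MvPolynomial ι K)) E]
    (hz : ∀ p : MvPolynomial ι K,
      algebraMap (FractionRing (MvPolynomial ι K)) E (algebraMap _ _ p) = aeval z p)
    {θ : ℝ} {N : ℕ} (u : Fin N → E)
    (h : ∀ d : ℕ, θ * (((d : ℝ) + 1) ^ Fintype.card ι * N) ≤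
      finrank K (span K (range fun b : (ι → Fin (d + 1)) × Fin N => aeval z (mon K b.1) * u b.2))) :
    θ * N ≤ finrank (FractionRing (MvPolynomial ι K))
      (span (FractionRing (MvPolynomial ι K)) (range u)) := by
  classical
  set F := FractionRing (MvPolynomial ι K)
  set L := span F (range u)
  have : FiniteDimensional F L := FiniteDimensional.span_of_finite F (finite_range _)
  let e := Module.finBasis F L
  let c : Fin N × Fin (finrank F L) → F := fun b =>
    e.repr ⟨u b.1, subset_span (mem_range_self _)⟩ b.2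
  obtain ⟨Δ, hΔ⟩ := IsLocalization.exist_integer_multiples_of_finite
    (nonZeroDivisors (MvPolynomial ι K)) c
  choose c' hc' using hΔ
  have hΔ0 : aeval z (Δ : MvPolynomial ι K) ≠ 0 := by
    rw [← hz, map_ne_zero]
    exact IsFractionRing.to_map_ne_zero_of_mem_nonZeroDivisors Δ.2
  have hu : ∀ i, u i * aeval z (Δ : MvPolynomial ι K) = ∑ k, aeval z (c' (i, k)) * (e k : E) := by
    intro i
    have h1 := congrArg Subtype.val (e.sum_repr ⟨u i, subset_span (mem_range_self _)⟩)
    simp only [AddSubmonoidClass.coe_finsetSum, SetLike.val_smul] at h1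
    rw [← h1, Finset.sum_mul]
    refine Finset.sum_congr rfl fun k _ => ?_
    rw [← hz, ← hz, hc', Algebra.smul_def, Algebra.smul_def, map_mul]
    ring
  set D := Finset.univ.sup fun b => (c' b).totalDegree
  refine le_of_box (c := D) (m := Fintype.card ι) fun d => ?_
  let v : (ι → Fin (d + D + 1)) × Fin (finrank F L) → E := fun b => aeval z (mon K b.1) * e b.2
  have : FiniteDimensional K (span K (range v)) :=
    FiniteDimensional.span_of_finite K (finite_range _)
  have h1 : finrank K (span K (range v)) ≤ (d + D + 1) ^ Fintype.card ι * finrank F L := by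
    simpa [Set.finrank] using finrank_range_le_card (R := K) v
  let W := span K (range fun b : (ι → Fin (d + 1)) × Fin N => aeval z (mon K b.1) * u b.2)
  let m := LinearMap.mulRight K (aeval z (Δ : MvPolynomial ι K))
  have h2 : W.map m ≤ span K (range v) := by
    rw [map_span, span_le]
    rintro _ ⟨_, ⟨b, rfl⟩, rfl⟩
    simp only [m, LinearMap.mulRight_apply, mul_assoc, hu, Finset.mul_sum, SetLike.mem_coe]
    refine sum_mem fun k _ => ?_
    rw [← mul_assoc, ← map_mul]
    have h3 := mon_mul_mem (p := c' (b.2, k)) (c := D)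
      (Finset.le_sup (f := fun b => (c' b).totalDegree) (Finset.mem_univ _)) b.1
    have h4 := mem_map_of_mem (f := LinearMap.mulRight K (e k : E) ∘ₗ
      (aeval z : MvPolynomial ι K →ₐ[K] E).toLinearMap) h3
    rw [map_span] at h4
    refine span_mono ?_ h4
    rintro _ ⟨_, ⟨b', rfl⟩, rfl⟩
    exact ⟨(b', k), rfl⟩
  have h3 : finrank K W = finrank K (W.map m) :=
    (Submodule.equivMapOfInjective m (mul_left_injective₀ hΔ0) W).finrank_eq
  have h4 : finrank K W ≤ (d + D + 1) ^ Fintype.card ι * finrank F L :=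
    h3.le.trans ((Submodule.finrank_mono h2).trans h1)
  have h5 : (finrank K W : ℝ) ≤ ((d : ℝ) + D + 1) ^ Fintype.card ι * finrank F L := by
    exact_mod_cast h4
  have h6 := h d
  nlinarith

end one

theorem two_place {k K M E₁ E₂ : Type} [Field k] [Field K] [Field M] [Field E₁] [Field E₂]
    [Algebra k M] [Algebra K E₁] [Algebra K E₂] (j₁ : M →+* E₁) (j₂ : M →+* E₂)
    (hk : ∀ c : k, ∃ c' : K, algebraMap K E₁ c' = j₁ (algebraMap k M c) ∧
      algebraMap K E₂ c' = j₂ (algebraMap k M c))
    {θ₁ θ₂ : ℝ} (hθ : θ₁ + θ₂ = 1) (h₁ : 0 < θ₁) (h₂ : 0 < θ₂) (hirr : Irrational θ₁)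
    (D₁ : ∀ (I : Type) [Fintype I] (v : I → M), LinearIndependent k v →
      θ₁ * Fintype.card I ≤ finrank K (span K (range fun i => j₁ (v i))))
    (D₂ : ∀ (I : Type) [Fintype I] (v : I → M), LinearIndependent k v →
      θ₂ * Fintype.card I ≤ finrank K (span K (range fun i => j₂ (v i))))
    {s : ℕ} (c : Fin s → K) (w : Fin s → M) (h : ∑ a, algebraMap K E₁ (c a) * j₁ (w a) = 0) :
    ∑ a, algebraMap K E₂ (c a) * j₂ (w a) = 0 := by
  classical
  by_contra hξ
  obtain ⟨t, -, ht⟩ := exists_maximal_algebraicIndependent (R := k) (∅ : Set M) (range w)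
    (empty_subset _) (algebraicIndependent_empty)
  have htf : t.Finite := (finite_range w).subset ht.1.2
  let : Fintype t := htf.fintype
  let y : t → M := Subtype.val
  have hy : AlgebraicIndependent k y := ht.1.1
  let F := IntermediateField.adjoin k t
  have hw : ∀ x ∈ range w, IsIntegral F x := by
    intro x hx
    by_cases hxt : x ∈ t
    · exact isIntegral_algebraMap (x := (⟨x, IntermediateField.subset_adjoin _ _ hxt⟩ : F))
    · have h1 : ¬ Transcendental (Algebra.adjoin k (id '' t)) (id x) := fun h1 =>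
        hxt (ht.2 (y := insert x t) ⟨ht.1.1.insert h1, insert_subset hx ht.1.2⟩
          (subset_insert _ _) (mem_insert _ _))
      rw [image_id, Transcendental, not_not] at h1
      exact (IntermediateField.isAlgebraic_adjoin_iff.2 h1).isIntegral
  let D := IntermediateField.adjoin F (range w)
  have : FiniteDimensional F D := IntermediateField.finiteDimensional_adjoin hw
  set N := finrank F D with hN
  have hN0 : 0 < N := finrank_pos
  let m := Module.finBasis F D
  have hm : LinearIndependent F fun i => (m i : M) :=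
    m.linearIndependent.map' D.val.toLinearMap (LinearMap.ker_eq_bot.2 Subtype.val_injective)
  have hjm : ∀ {E : Type} [Field E] [Algebra K E] (j : M →+* E) {n : ℕ} (b : t → Fin n),
      j (aeval y (mon k b)) = aeval (fun i => j (y i)) (mon K b) := by
    intro E _ _ j n b
    simp [mon, aeval_monomial, Finsupp.prod_fintype]
  have hb0 : ∀ n, LinearIndependent k fun b : t → Fin n => aeval y (mon k b) := fun n =>
    (mon_indep (K := k) (ι := t) n).map' (aeval y : MvPolynomial t k →ₐ[k] M).toLinearMap
      (LinearMap.ker_eq_bot.2 (algebraicIndependent_iff_injective_aeval.1 hy))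
  have hmem : ∀ {n : ℕ} (b : t → Fin n), aeval y (mon k b) ∈ F := by
    intro n b
    simp only [mon, aeval_monomial, map_one, one_mul]
    exact prod_mem fun i _ => pow_mem (IntermediateField.subset_adjoin _ _ i.2) _
  have hb1 : ∀ n, LinearIndependent k fun b : (t → Fin n) × Fin N =>
      aeval y (mon k b.1) * (m b.2 : M) := by
    intro n
    have h1 : LinearIndependent k fun b : t → Fin n => (⟨aeval y (mon k b), hmem b⟩ : F) :=
      LinearIndependent.of_comp F.val.toLinearMap (hb0 n)
    exact linearIndependent_smul h1 hm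
  have inj : ∀ {E : Type} [Field E] [Algebra K E] (j : M →+* E) {θ : ℝ}, 0 < θ →
      (∀ (I : Type) [Fintype I] (v : I → M), LinearIndependent k v →
        θ * Fintype.card I ≤ finrank K (span K (range fun i => j (v i)))) →
      Function.Injective (aeval (fun i => j (y i)) : MvPolynomial t K →ₐ[K] E) := by
    intro E _ _ j θ h0 hD
    refine inj_of_dim _ h0 fun d => ?_
    have := hD _ _ (hb0 (d + 1))
    rw [show (fun i => j (aeval y (mon k i))) = _ from funext fun b => hjm j b] at this
    simpa using this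
  set G := FractionRing (MvPolynomial t K)
  let φ₁ : G →+* E₁ := IsFractionRing.lift (g := (aeval (fun i => j₁ (y i)) :
    MvPolynomial t K →ₐ[K] E₁).toRingHom) (inj j₁ h₁ D₁)
  let φ₂ : G →+* E₂ := IsFractionRing.lift (g := (aeval (fun i => j₂ (y i)) :
    MvPolynomial t K →ₐ[K] E₂).toRingHom) (inj j₂ h₂ D₂)
  let : Algebra G E₁ := φ₁.toAlgebra
  let : Algebra G E₂ := φ₂.toAlgebra
  have hz₁ : ∀ p : MvPolynomial t K, algebraMap G E₁ (algebraMap _ _ p) = aeval (fun i => j₁ (y i)) p := fun p =>
    IsFractionRing.lift_algebraMap _ p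
  have hz₂ : ∀ p : MvPolynomial t K, algebraMap G E₂ (algebraMap _ _ p) = aeval (fun i => j₂ (y i)) p := fun p =>
    IsFractionRing.lift_algebraMap _ p
  have r₁ := rank_of_dim (θ := θ₁) _ hz₁ (fun i => j₁ (m i)) fun d => by
    have := D₁ _ _ (hb1 (d + 1))
    rw [show (fun b : (t → Fin (d + 1)) × Fin N => j₁ (aeval y (mon k b.1) * (m b.2 : M))) =
      fun b => aeval (fun i => j₁ (y i)) (mon K b.1) * j₁ (m b.2) from
      funext fun b => by rw [map_mul, hjm j₁]] at this
    simpa using this
  have r₂ := rank_of_dim (θ := θ₂) _ hz₂ (fun i => j₂ (m i)) fun d => by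
    have := D₂ _ _ (hb1 (d + 1))
    rw [show (fun b : (t → Fin (d + 1)) × Fin N => j₂ (aeval y (mon k b.1) * (m b.2 : M))) =
      fun b => aeval (fun i => j₂ (y i)) (mon K b.1) * j₂ (m b.2) from
      funext fun b => by rw [map_mul, hjm j₂]] at this
    simpa using this
  have hF : ∀ f ∈ F, ∃ g : G, algebraMap G E₁ g = j₁ f ∧ algebraMap G E₂ g = j₂ f := by
    intro f hf
    induction hf using IntermediateField.adjoin_induction with
    | mem x hx => exact ⟨algebraMap _ _ (X (⟨x, hx⟩ : t) : MvPolynomial t K), by simp [hz₁, y],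
        by simp [hz₂, y]⟩
    | algebraMap x =>
      obtain ⟨c', e1, e2⟩ := hk x
      exact ⟨algebraMap _ _ (C c' : MvPolynomial t K), by simpa [hz₁] using e1,
        by simpa [hz₂] using e2⟩
    | add x y _ _ hx hy =>
      obtain ⟨a, a1, a2⟩ := hx
      obtain ⟨b, b1, b2⟩ := hy
      exact ⟨a + b, by simp [a1, b1], by simp [a2, b2]⟩
    | inv x _ hx =>
      obtain ⟨a, a1, a2⟩ := hx
      exact ⟨a⁻¹, by simp [a1], by simp [a2]⟩
    | mul x y _ _ hx hy =>
      obtain ⟨a, a1, a2⟩ := hx
      obtain ⟨b, b1, b2⟩ := hy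
      exact ⟨a * b, by simp [a1, b1], by simp [a2, b2]⟩
  let W := span G (range fun i => ((j₁ (m i), j₂ (m i)) : E₁ × E₂))
  have : FiniteDimensional G W := FiniteDimensional.span_of_finite G (finite_range _)
  have hWN : finrank G W ≤ N := by
    simpa [Set.finrank] using finrank_range_le_card (R := G) fun i => ((j₁ (m i), j₂ (m i)) : E₁ × E₂)
  have hD : ∀ x ∈ D, ((j₁ x, j₂ x) : E₁ × E₂) ∈ W := by
    intro x hx
    have h1 := congrArg Subtype.val (m.sum_repr ⟨x, hx⟩)
    simp only [AddSubmonoidClass.coe_finsetSum, SetLike.val_smul] at h1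
    choose g g1 g2 using fun i => hF _ (m.repr ⟨x, hx⟩ i).2
    have e : ((j₁ x, j₂ x) : E₁ × E₂) = ∑ i, g i • ((j₁ (m i), j₂ (m i)) : E₁ × E₂) := by
      rw [← h1]
      ext
      · simp only [map_sum, Prod.fst_sum, Prod.smul_fst]
        simp only [Algebra.smul_def, g1, map_mul]; rfl
      · simp only [map_sum, Prod.snd_sum, Prod.smul_snd]
        simp only [Algebra.smul_def, g2, map_mul]; rfl
    rw [e]
    exact sum_mem fun i _ => smul_mem _ _ (subset_span (mem_range_self i))
  set ξ := ∑ a, algebraMap K E₂ (c a) * j₂ (w a) with hξd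
  have hW0 : ∀ i, ((0, j₂ (m i) * ξ) : E₁ × E₂) ∈ W := by
    intro i
    have e : ((0, j₂ (m i) * ξ) : E₁ × E₂) = ∑ a, (algebraMap _ G (C (c a) : MvPolynomial t K)) •
        ((j₁ (w a * m i), j₂ (w a * m i)) : E₁ × E₂) := by
      ext
      · simp only [Prod.fst_sum, Prod.smul_fst]
        simp only [Algebra.smul_def, hz₁, map_mul, algHom_C,
          ← mul_assoc, ← Finset.sum_mul, h, zero_mul]
      · simp only [Prod.snd_sum, Prod.smul_snd]
        simp only [Algebra.smul_def, hz₂, map_mul, algHom_C,
          ← mul_assoc, ← Finset.sum_mul]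
        rw [mul_comm]
    rw [e]
    exact sum_mem fun a _ => smul_mem _ _ (hD _ (mul_mem
      (IntermediateField.subset_adjoin _ _ (mem_range_self a)) (m i).2))
  let f : W →ₗ[G] E₁ := (LinearMap.fst G E₁ E₂).domRestrict W
  have e1 := f.finrank_range_add_finrank_ker
  have e2 : LinearMap.range f = span G (range fun i => j₁ (m i)) := by
    rw [LinearMap.range_domRestrict, map_span, ← range_comp]
    rfl
  let L := span G (range fun i => j₂ (m i))
  let g : E₂ →ₗ[G] E₁ × E₂ := LinearMap.inr G E₁ E₂ ∘ₗ LinearMap.mulRight G ξ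
  have hg : Function.Injective g := LinearMap.inr_injective.comp (mul_left_injective₀ hξ)
  have e3 : L.map g ≤ (LinearMap.ker f).map W.subtype := by
    rw [map_span, span_le]
    rintro _ ⟨_, ⟨i, rfl⟩, rfl⟩
    exact ⟨⟨_, hW0 i⟩, by simp [f], rfl⟩
  have e4 : finrank G L ≤ finrank G (LinearMap.ker f) := by
    rw [(Submodule.equivMapOfInjective g hg L).finrank_eq,
      ← Submodule.finrank_map_subtype_eq W (LinearMap.ker f)]
    exact Submodule.finrank_mono e3
  rw [← e2] at r₁
  have e5 : (finrank G (LinearMap.range f) : ℝ) + finrank G L ≤ N := by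
    have : finrank G (LinearMap.range f) + finrank G L ≤ N := by omega
    exact_mod_cast this
  have e6 : θ₁ * N = finrank G (LinearMap.range f) := by
    have : θ₂ * N ≤ finrank G L := r₂
    have e7 : θ₁ * N + θ₂ * N = N := by rw [← add_mul, hθ, one_mul]
    linarith
  exact (hirr.mul_natCast hN0.ne').ne_nat _ e6

end Pool.Agent.MP_1c76f0_nt
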