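import Mathlib

/- Sparse integers at a scale: sums of terms c * 10 ^ (beta k) with a bounded total coefficient
   size, transfer of divisibility between the primes 2 and 5, a box-principle lemma,
   and the construction of scales by simultaneous approximation. -/

namespace Pool.Agent.MP_1c76f0_nt

open Finset

structure Sc where
  β : ℕ → ℕ
  μ : ℕ
  Z : ℕ
  h : ℕ
  β_add : ∀ a b, β (a + b) ≤ β a + β b
  add_β : ∀ a b, β a + β b ≤ β (a + b) + 1
  gap : ∀ k, β k + h ≤ β (k + 1)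
  β_mul : ∀ k, β (k * μ) = k * Z
  μ_pos : 0 < μ

namespace Sc

variable (S : Sc)

lemma β_zero : S.β 0 = 0 := by simpa using S.β_mul 0

lemma mono : Monotone S.β :=
  monotone_nat_of_le_succ fun k => le_trans (Nat.le_add_right _ _) (S.gap k)

lemma gap_lt {a b : ℕ} (h : a < b) : S.β a + S.h ≤ S.β b := (S.gap a).trans (S.mono h)

lemma h_le_Z : S.h ≤ S.Z := by
  have h1 := S.gap_lt S.μ_pos
  have h2 := S.β_mul 1
  rw [one_mul, one_mul] at h2
  omega

end Sc

def ev (S : Sc) (X : ℕ →₀ ℤ) : ℤ := X.sum fun k c => c * 10 ^ S.β k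

def nrm (X : ℕ →₀ ℤ) : ℤ := X.sum fun _ c => |c|

def Sp (S : Sc) (D x : ℤ) : Prop := ∃ X, ev S X = x ∧ nrm X ≤ D

variable {S : Sc}

lemma ev_add (X Y : ℕ →₀ ℤ) : ev S (X + Y) = ev S X + ev S Y :=
  Finsupp.sum_add_index' (by simp) (by intro a b c; ring)

lemma ev_zero : ev S 0 = 0 := by simp [ev]

lemma ev_single (k : ℕ) (c : ℤ) : ev S (Finsupp.single k c) = c * 10 ^ S.β k :=
  Finsupp.sum_single_index (by simp)

lemma ev_sum {ι : Type*} (t : Finset ι) (X : ι → ℕ →₀ ℤ) :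
    ev S (∑ i ∈ t, X i) = ∑ i ∈ t, ev S (X i) := by
  classical
  induction t using Finset.induction_on with
  | empty => simp [ev_zero]
  | insert a t ha ih => rw [sum_insert ha, sum_insert ha, ev_add, ih]

lemma nrm_single (k : ℕ) (c : ℤ) : nrm (Finsupp.single k c) = |c| :=
  Finsupp.sum_single_index (by simp)

lemma nrm_nonneg (X : ℕ →₀ ℤ) : 0 ≤ nrm X := sum_nonneg fun _ _ => abs_nonneg _

lemma nrm_add_le (X Y : ℕ →₀ ℤ) : nrm (X + Y) ≤ nrm X + nrm Y := by
  unfold nrm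
  rw [Finsupp.sum_of_support_subset (X + Y) Finsupp.support_add _ (by simp),
    Finsupp.sum_of_support_subset X (subset_union_left (s₂ := Y.support)) _ (by simp),
    Finsupp.sum_of_support_subset Y (subset_union_right (s₁ := X.support)) _ (by simp),
    ← sum_add_distrib]
  exact sum_le_sum fun k _ => by simpa using abs_add_le (X k) (Y k)

lemma abs_le_nrm (X : ℕ →₀ ℤ) (k : ℕ) : |X k| ≤ nrm X := by
  by_cases hk : k ∈ X.support
  · exact single_le_sum (f := fun k => |X k|) (fun _ _ => abs_nonneg _) hk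
  · rw [Finsupp.notMem_support_iff.1 hk]; simpa using nrm_nonneg X

lemma Sp.mono {D D' x : ℤ} (h : Sp S D x) (hD : D ≤ D') : Sp S D' x := by
  obtain ⟨X, h1, h2⟩ := h
  exact ⟨X, h1, h2.trans hD⟩

lemma Sp.nonneg {D x : ℤ} (h : Sp S D x) : 0 ≤ D := by
  obtain ⟨X, -, h2⟩ := h
  exact (nrm_nonneg X).trans h2

lemma Sp.add {D D' x y : ℤ} (h : Sp S D x) (h' : Sp S D' y) : Sp S (D + D') (x + y) := by
  obtain ⟨X, h1, h2⟩ := h
  obtain ⟨Y, h3, h4⟩ := h'
  exact ⟨X + Y, by rw [ev_add, h1, h3], (nrm_add_le X Y).trans (add_le_add h2 h4)⟩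

lemma Sp.single (S : Sc) (k : ℕ) (c : ℤ) : Sp S |c| (c * 10 ^ S.β k) :=
  ⟨Finsupp.single k c, ev_single k c, (nrm_single k c).le⟩

lemma Sp.const (S : Sc) (c : ℤ) : Sp S |c| c := by
  simpa [S.β_zero] using Sp.single S 0 c

lemma Sp.sum {ι : Type*} (t : Finset ι) (D x : ι → ℤ) (h : ∀ i ∈ t, Sp S (D i) (x i)) :
    Sp S (∑ i ∈ t, D i) (∑ i ∈ t, x i) := by
  classical
  induction t using Finset.induction_on with
  | empty => simpa using Sp.const S 0
  | insert a t ha ih =>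
    rw [sum_insert ha, sum_insert ha]
    exact (h a (mem_insert_self _ _)).add (ih fun i hi => h i (mem_insert_of_mem hi))

/-- the carry factor -/
def car (S : Sc) (a b : ℕ) : ℤ := 10 ^ (S.β a + S.β b - S.β (a + b))

lemma car_spec (S : Sc) (a b : ℕ) :
    (10 : ℤ) ^ S.β a * 10 ^ S.β b = car S a b * 10 ^ S.β (a + b) := by
  unfold car
  rw [← pow_add, ← pow_add, Nat.sub_add_cancel (S.β_add a b)]

lemma abs_car (S : Sc) (a b : ℕ) : |car S a b| ≤ 10 := by
  unfold car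
  rw [abs_of_nonneg (by positivity)]
  calc (10 : ℤ) ^ (S.β a + S.β b - S.β (a + b)) ≤ 10 ^ 1 :=
        pow_le_pow_right₀ (by norm_num) (by have := S.add_β a b; omega)
    _ = 10 := by norm_num

lemma Sp.mul {D D' x y : ℤ} (h : Sp S D x) (h' : Sp S D' y) : Sp S (10 * D * D') (x * y) := by
  obtain ⟨X, rfl, h2⟩ := h
  obtain ⟨Y, rfl, h4⟩ := h'
  have e : ev S X * ev S Y = ∑ a ∈ X.support, ∑ b ∈ Y.support,
      (X a * Y b * car S a b) * 10 ^ S.β (a + b) := by
    unfold ev Finsupp.sum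
    rw [sum_mul_sum]
    refine sum_congr rfl fun a _ => sum_congr rfl fun b _ => ?_
    rw [mul_assoc (X a * Y b), ← car_spec]; ring
  rw [e]
  refine (Sp.sum _ _ _ fun a _ => Sp.sum _ _ _ fun b _ => Sp.single S _ _).mono ?_
  calc ∑ a ∈ X.support, ∑ b ∈ Y.support, |X a * Y b * car S a b|
      ≤ ∑ a ∈ X.support, ∑ b ∈ Y.support, 10 * (|X a| * |Y b|) := by
        refine sum_le_sum fun a _ => sum_le_sum fun b _ => ?_
        rw [abs_mul, abs_mul, mul_comm]
        exact mul_le_mul_of_nonneg_right (abs_car S a b) (by positivity)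
    _ = 10 * (nrm X * nrm Y) := by
        unfold nrm Finsupp.sum
        rw [sum_mul_sum, mul_sum]
        exact sum_congr rfl fun a _ => by rw [mul_sum]
    _ ≤ 10 * D * D' := by
        rw [mul_assoc]
        exact mul_le_mul_of_nonneg_left
          (mul_le_mul h2 h4 (nrm_nonneg _) ((nrm_nonneg _).trans h2)) (by norm_num)

lemma Sp.neg {D x : ℤ} (h : Sp S D x) : Sp S D (-x) := by
  obtain ⟨X, rfl, h2⟩ := h
  have e : -ev S X = ∑ a ∈ X.support, (-X a) * 10 ^ S.β a := by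
    unfold ev Finsupp.sum
    rw [← sum_neg_distrib]
    exact sum_congr rfl fun a _ => by ring
  rw [e]
  refine (Sp.sum _ _ _ fun a _ => Sp.single S _ _).mono ?_
  simpa [nrm, Finsupp.sum] using h2

lemma dvd_ev {X : ℕ →₀ ℤ} {k : ℕ} (h : ∀ j < k, X j = 0) : (10 : ℤ) ^ S.β k ∣ ev S X := by
  refine dvd_sum fun j hj => Dvd.dvd.mul_left (pow_dvd_pow _ (S.mono ?_)) _
  by_contra hlt
  exact Finsupp.mem_support_iff.1 hj (h j (not_le.1 hlt))

lemma least {q q' : ℤ} (hq : q * q' = 10) (hc : IsCoprime q q') {X : ℕ →₀ ℤ} (hX : X ≠ 0)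
    (hb : ∀ k, |X k| < q ^ S.h) :
    ∃ a, (10 : ℤ) ^ a ∣ ev S X ∧ ¬ q ^ (a + S.h) ∣ ev S X := by
  classical
  have hex : ∃ k, X k ≠ 0 := by
    by_contra h
    push Not at h
    exact hX (Finsupp.ext h)
  set k := Nat.find hex with hk
  have hk0 : X k ≠ 0 := Nat.find_spec hex
  have hlt : ∀ j < k, X j = 0 := fun j hj => by simpa using Nat.find_min hex hj
  refine ⟨S.β k, dvd_ev hlt, fun hd => ?_⟩
  have e : ev S X = X k * 10 ^ S.β k + ev S (X.erase k) := by
    conv_lhs => rw [← Finsupp.single_add_erase k X, ev_add, ev_single]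
  have h1 : (10 : ℤ) ^ S.β (k + 1) ∣ ev S (X.erase k) := by
    refine dvd_ev fun j hj => ?_
    rcases Nat.lt_succ_iff_lt_or_eq.1 hj with h | h
    · rw [Finsupp.erase_ne h.ne, hlt j h]
    · rw [h, Finsupp.erase_same]
  have h2 : q ^ (S.β k + S.h) ∣ ev S (X.erase k) :=
    ((pow_dvd_pow_of_dvd (Dvd.intro _ hq) _).trans (pow_dvd_pow _ (S.gap k))).trans h1
  rw [e] at hd
  have h3 : q ^ (S.β k + S.h) ∣ X k * 10 ^ S.β k := (dvd_add_left h2).1 hd
  have hq0 : q ≠ 0 := by rintro rfl; simp at hq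
  rw [← hq, mul_pow, pow_add, show X k * (q ^ S.β k * q' ^ S.β k) =
    q ^ S.β k * (X k * q' ^ S.β k) by ring, mul_dvd_mul_iff_left (pow_ne_zero _ hq0)] at h3
  have h4 : q ^ S.h ∣ X k := (hc.pow).dvd_of_dvd_mul_right h3
  have h5 := Int.le_of_dvd (abs_pos.2 hk0) ((dvd_abs _ _).2 h4)
  exact absurd (hb k) (not_lt.2 h5)

lemma transfer {q q' : ℤ} (hq : q * q' = 10) (hc : IsCoprime q q') {D x : ℤ} (hx : Sp S D x)
    (hD : D < q ^ S.h) {a : ℕ} (hd : q ^ (a + S.h) ∣ x) : (10 : ℤ) ^ a ∣ x := by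
  obtain ⟨X, rfl, h2⟩ := hx
  by_cases hX : X = 0
  · simp [hX, ev_zero]
  obtain ⟨b, h1, h3⟩ := least (S := S) hq hc hX fun k => (abs_le_nrm X k).trans_lt (h2.trans_lt hD)
  refine (pow_dvd_pow _ ?_).trans h1
  by_contra hlt
  exact h3 ((pow_dvd_pow _ (by omega)).trans hd)

lemma ev_ne_zero {X : ℕ →₀ ℤ} (hX : X ≠ 0) (hb : ∀ k, |X k| < 2 ^ S.h) : ev S X ≠ 0 := by
  obtain ⟨b, -, h3⟩ := least (S := S) (q := 2) (q' := 5) (by norm_num)
    (by norm_num [Int.isCoprime_iff_gcd_eq_one]) hX hb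
  intro h
  exact h3 (by simp [h])

lemma siegel_int {α γ : Type} [Fintype α] [Fintype γ] (A : Matrix α γ ℤ) (D : ℤ) (hD : 1 ≤ D)
    (hA : ∀ i j, |A i j| ≤ D) (e : ℕ) (hlt : Fintype.card α < Fintype.card γ)
    (he : Fintype.card α ≤ e * (Fintype.card γ - Fintype.card α)) :
    ∃ t : γ → ℤ, t ≠ 0 ∧ A.mulVec t = 0 ∧ ∀ j, |t j| ≤ (Fintype.card γ * D) ^ e := by
  classical
  have hγ : (1 : ℤ) ≤ Fintype.card γ := by exact_mod_cast (Nat.zero_le _).trans_lt hlt
  rcases Nat.eq_zero_or_pos (Fintype.card α) with h0 | h0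
  · have : IsEmpty α := Fintype.card_eq_zero_iff.1 h0
    refine ⟨fun _ => 1, ?_, Subsingleton.elim _ _, fun j => ?_⟩
    · have : Nonempty γ := Fintype.card_pos_iff.1 ((Nat.zero_le _).trans_lt hlt)
      intro h
      simpa using congrFun h (Classical.arbitrary γ)
    · simpa using one_le_pow₀ (one_le_mul_of_one_le_of_one_le hγ hD)
  let : SeminormedAddCommGroup (Matrix α γ ℤ) := Matrix.seminormedAddCommGroup
  obtain ⟨t, h1, h2, h3⟩ := Int.Matrix.exists_ne_zero_int_vec_norm_le A hlt h0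
  refine ⟨t, h1, h2, fun j => ?_⟩
  have hD' : (1 : ℝ) ≤ D := by exact_mod_cast hD
  have hγ' : (1 : ℝ) ≤ Fintype.card γ := by exact_mod_cast hγ
  have hn : ‖A‖ ≤ D := (Matrix.norm_le_iff (by linarith)).2 fun i j => by
    rw [Int.norm_eq_abs]; exact_mod_cast hA i j
  have hpos : (0 : ℝ) < (Fintype.card γ : ℝ) - Fintype.card α := by
    rw [sub_pos]; exact_mod_cast hlt
  have h4 : ‖t j‖ ≤ ((Fintype.card γ : ℝ) * D) ^ e := by
    calc ‖t j‖ ≤ ‖t‖ := norm_le_pi_norm t j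
      _ ≤ _ := h3
      _ ≤ ((Fintype.card γ : ℝ) * D) ^
          ((Fintype.card α : ℝ) / (Fintype.card γ - Fintype.card α)) := by
        gcongr
        exact max_le hD' hn
      _ ≤ ((Fintype.card γ : ℝ) * D) ^ (e : ℝ) := by
        refine Real.rpow_le_rpow_of_exponent_le (one_le_mul_of_one_le_of_one_le hγ' hD') ?_
        rw [div_le_iff₀ hpos]
        have : ((Fintype.card α : ℕ) : ℝ) ≤ ((e * (Fintype.card γ - Fintype.card α) : ℕ) : ℝ) := by
          exact_mod_cast he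
        rwa [Nat.cast_mul, Nat.cast_sub hlt.le] at this
      _ = _ := Real.rpow_natCast _ _
  rw [Int.norm_eq_abs] at h4
  exact_mod_cast h4

lemma siegel {I J : Type} [Fintype I] [Fintype J] (b : J → I → ℤ) {D T : ℤ} (hD : 1 ≤ D)
    (hb : ∀ k i, Sp S D (b k i)) (δ p : ℕ) (hlt : Fintype.card J * p < Fintype.card I * δ)
    (hT : (Fintype.card I * (δ * S.μ) : ℕ) * (10 * D) ≤ T)
    (hh : T ^ (Fintype.card J * p) < 2 ^ S.h) :
    ∃ r : I → ℤ, r ≠ 0 ∧ (∀ i, Sp S ((δ * S.μ : ℕ) * T ^ (Fintype.card J * p)) (r i)) ∧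
      (∀ i, |r i| ≤ (δ * S.μ : ℕ) * T ^ (Fintype.card J * p) * 10 ^ (δ * S.Z)) ∧
      ∀ k, (10 : ℤ) ^ (p * S.Z) ∣ ∑ i, r i * b k i := by
  classical
  choose B hB1 hB2 using hb
  let A : Matrix (J × Fin (p * S.μ)) (I × Fin (δ * S.μ)) ℤ := fun u v =>
    if (v.2 : ℕ) ≤ u.2 then B u.1 v.1 (u.2 - v.2) * car S v.2 (u.2 - v.2) else 0
  have hA : ∀ u v, |A u v| ≤ 10 * D := by
    intro u v
    simp only [A]
    split_ifs
    · rw [abs_mul, mul_comm]
      exact mul_le_mul (abs_car _ _ _) ((abs_le_nrm _ _).trans (hB2 _ _)) (abs_nonneg _)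
        (by norm_num)
    · simp; linarith
  have hμ := S.μ_pos
  obtain ⟨t, h1, h2, h3⟩ := siegel_int A (10 * D) (by linarith) hA (Fintype.card J * p)
    (by simp only [Fintype.card_prod, Fintype.card_fin, ← mul_assoc]
        exact Nat.mul_lt_mul_of_pos_right hlt hμ)
    (by simp only [Fintype.card_prod, Fintype.card_fin, ← mul_assoc]
        rw [← Nat.sub_mul, ← mul_assoc]
        refine Nat.mul_le_mul_right _ (Nat.le_mul_of_pos_right _ (by omega)))
  simp only [Fintype.card_prod, Fintype.card_fin] at h3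
  have h4 : ∀ v, |t v| ≤ T ^ (Fintype.card J * p) := fun v =>
    (h3 v).trans (pow_le_pow_left₀ (by positivity) hT _)
  let X : I → ℕ →₀ ℤ := fun i => ∑ k : Fin (δ * S.μ), Finsupp.single (k : ℕ) (t (i, k))
  have hXk : ∀ i (k : Fin (δ * S.μ)), X i k = t (i, k) := by
    intro i k
    simp only [X, Finsupp.coe_finsetSum, Finset.sum_apply, Finsupp.single_apply, Fin.val_inj]
    simp
  have hXb : ∀ i k, |X i k| < 2 ^ S.h := by
    intro i k
    by_cases hk : k < δ * S.μ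
    · rw [show X i k = t (i, ⟨k, hk⟩) from hXk i ⟨k, hk⟩]
      exact (h4 _).trans_lt hh
    · have : X i k = 0 := by
        simp only [X, Finsupp.coe_finsetSum, Finset.sum_apply, Finsupp.single_apply]
        refine sum_eq_zero fun j _ => if_neg ?_
        have := j.2
        omega
      rw [this]; simp
  have hev : ∀ i, ev S (X i) = ∑ k : Fin (δ * S.μ), t (i, k) * 10 ^ S.β k := by
    intro i
    simp only [X, ev_sum, ev_single]
  refine ⟨fun i => ev S (X i), ?_, fun i => ?_, fun i => ?_, fun k => ?_⟩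
  · obtain ⟨⟨i, k⟩, hv⟩ := Function.ne_iff.1 h1
    refine Function.ne_iff.2 ⟨i, ev_ne_zero (fun h0 => hv ?_) (hXb i)⟩
    rw [← hXk, h0]; rfl
  · simp only [hev]
    refine (Sp.sum _ _ _ fun k _ => Sp.single S _ _).mono ?_
    calc ∑ k : Fin (δ * S.μ), |t (i, k)| ≤ ∑ k : Fin (δ * S.μ), T ^ (Fintype.card J * p) :=
          sum_le_sum fun k _ => h4 _
      _ = _ := by simp
  · simp only [hev]
    calc |∑ k : Fin (δ * S.μ), t (i, k) * 10 ^ S.β k|
        ≤ ∑ k : Fin (δ * S.μ), |t (i, k) * 10 ^ S.β k| := abs_sum_le_sum_abs _ _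
      _ ≤ ∑ k : Fin (δ * S.μ), T ^ (Fintype.card J * p) * 10 ^ (δ * S.Z) := by
          refine sum_le_sum fun k _ => ?_
          rw [abs_mul, abs_of_nonneg (by positivity : (0 : ℤ) ≤ 10 ^ S.β k)]
          refine mul_le_mul (h4 _) (pow_le_pow_right₀ (by norm_num) ?_) (by positivity)
            ((abs_nonneg _).trans (h4 (i, k)))
          rw [← S.β_mul]
          exact S.mono k.2.le
      _ = _ := by simp [mul_assoc]
  · let Y : ℕ →₀ ℤ := ∑ v : I × Fin (δ * S.μ), ∑ k' ∈ (B k v.1).support,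
      Finsupp.single ((v.2 : ℕ) + k') (t v * B k v.1 k' * car S v.2 k')
    have e : ∑ i, ev S (X i) * b k i = ev S Y := by
      simp only [Y, ev_sum, ev_single, hev, Fintype.sum_prod_type]
      refine sum_congr rfl fun i _ => ?_
      rw [← hB1 k i]
      unfold ev Finsupp.sum
      rw [sum_mul_sum]
      refine sum_congr rfl fun a _ => sum_congr rfl fun a' _ => ?_
      rw [mul_assoc (t (i, a) * B k i a'), ← car_spec]; ring
    rw [e, ← S.β_mul]
    refine dvd_ev fun j hj => ?_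
    have h5 := congrFun h2 (k, ⟨j, hj⟩)
    simp only [Matrix.mulVec, dotProduct, A, Pi.zero_apply] at h5
    rw [← h5]
    simp only [Y, Finsupp.coe_finsetSum, Finset.sum_apply, Finsupp.single_apply]
    refine sum_congr rfl fun v _ => ?_
    split_ifs with hv
    · rw [sum_eq_single (j - v.2)]
      · rw [if_pos (by omega)]; ring
      · intro a _ ha
        rw [if_neg (by omega)]
      · intro ha
        rw [Finsupp.notMem_support_iff.1 ha]; simp
    · rw [zero_mul]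
      exact sum_eq_zero fun a _ => if_neg (by omega)

lemma dirichlet (A : Finset ℕ) {N Q : ℕ} (hN : 0 < N) (hQ : 0 < Q) :
    ∃ j, 1 ≤ j ∧ j ≤ N ^ A.card ∧ ∀ a ∈ A, ∃ k : ℕ,
      k * Q * N < a * j * N + Q ∧ a * j * N < k * Q * N + Q := by
  classical
  let f : Fin (N ^ A.card + 1) → (A → Fin N) := fun j a =>
    ⟨(a.1 * j % Q) * N / Q, by
      rw [Nat.div_lt_iff_lt_mul hQ, mul_comm N Q]
      exact Nat.mul_lt_mul_of_pos_right (Nat.mod_lt _ hQ) hN⟩
  have key : ∀ j1 j2 : Fin (N ^ A.card + 1), j1 < j2 → f j1 = f j2 →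
      ∃ j, 1 ≤ j ∧ j ≤ N ^ A.card ∧ ∀ a ∈ A, ∃ k : ℕ,
      k * Q * N < a * j * N + Q ∧ a * j * N < k * Q * N + Q := by
    intro j1 j2 hlt hf
    have hlt' : (j1 : ℕ) < j2 := hlt
    refine ⟨j2 - j1, by omega, by have := j2.2; omega, fun a ha => ?_⟩
    have h1 : (a * j1 % Q) * N / Q = (a * j2 % Q) * N / Q :=
      congrArg Fin.val (congrFun hf ⟨a, ha⟩)
    have h2 : a * j1 / Q ≤ a * j2 / Q := Nat.div_le_div_right (Nat.mul_le_mul_left _ hlt'.le)
    refine ⟨a * j2 / Q - a * j1 / Q, ?_⟩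
    have e1 := Nat.div_add_mod (a * j1) Q
    have e2 := Nat.div_add_mod (a * j2) Q
    have e3 := Nat.div_add_mod (a * j1 % Q * N) Q
    have e4 := Nat.div_add_mod (a * j2 % Q * N) Q
    have e5 := Nat.mod_lt (a * j1 % Q * N) hQ
    have e6 := Nat.mod_lt (a * j2 % Q * N) hQ
    rw [h1] at e3
    obtain ⟨u, hu⟩ := Nat.exists_eq_add_of_le h2
    obtain ⟨v, hv⟩ := Nat.exists_eq_add_of_le hlt'.le
    rw [hu, hv, Nat.add_sub_cancel_left, Nat.add_sub_cancel_left]
    rw [hu] at e2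
    generalize a * j1 % Q = r1 at *
    generalize a * j2 % Q = r2 at *
    generalize a * j1 / Q = u1 at *
    have e7 : u * Q + r2 = a * v + r1 := by rw [hv] at e2; nlinarith
    have e8 : u * Q * N + r2 * N = a * v * N + r1 * N := by rw [← add_mul, e7, add_mul]
    omega
  obtain ⟨j1, j2, hne, hf⟩ := Fintype.exists_ne_map_eq_of_card_lt f (by simp)
  rcases lt_or_gt_of_ne hne with h | h
  · exact key j1 j2 h hf
  · exact key j2 j1 h hf.symm

lemma ceil_spec (Q j k : ℕ) (hj : 0 < j) :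
    k * Q ≤ (k * Q + j - 1) / j * j ∧ (k * Q + j - 1) / j * j < k * Q + j := by
  have e1 := Nat.div_add_mod (k * Q + j - 1) j
  have e2 := Nat.mod_lt (k * Q + j - 1) hj
  rw [mul_comm j] at e1
  omega

/-- the scale attached to the rational step `Q / j` -/
def mkSc (Q j h : ℕ) (hj : 0 < j) (hh : (h + 1) * j ≤ Q) : Sc where
  β k := (k * Q + j - 1) / j
  μ := j
  Z := Q
  h := h
  β_add a b := by
    have h1 := ceil_spec Q j a hj
    have h2 := ceil_spec Q j b hj
    have h3 := ceil_spec Q j (a + b) hj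
    refine Nat.lt_succ_iff.1 (Nat.lt_of_mul_lt_mul_right (a := j) ?_)
    rw [Nat.succ_mul, add_mul]
    rw [add_mul] at h3 ⊢
    omega
  add_β a b := by
    have h1 := ceil_spec Q j a hj
    have h2 := ceil_spec Q j b hj
    have h3 := ceil_spec Q j (a + b) hj
    refine Nat.lt_succ_iff.1 (Nat.lt_of_mul_lt_mul_right (a := j) ?_)
    have e : (a + b) * Q = a * Q + b * Q := add_mul _ _ _
    rw [Nat.succ_mul, add_mul, add_mul (_ / j) 1 j]
    omega
  gap k := by
    have h1 := ceil_spec Q j k hj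
    have h2 := ceil_spec Q j (k + 1) hj
    refine (Nat.lt_of_mul_lt_mul_right (a := j) ?_).le
    rw [add_mul] at hh
    rw [add_mul]
    rw [add_mul k 1 Q] at h2 ⊢
    omega
  β_mul k := by
    have h1 := ceil_spec Q j (k * j) hj
    have e : k * j * Q = k * Q * j := by ring
    rw [e] at h1 ⊢
    refine le_antisymm (Nat.lt_succ_iff.1 (Nat.lt_of_mul_lt_mul_right (a := j) ?_))
      (Nat.le_of_mul_le_mul_right h1.1 hj)
    rw [Nat.succ_mul]
    exact h1.2
  μ_pos := hj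

lemma sp_monomial {Q j h N E a k : ℕ} (hj : 0 < j) (hh : (h + 1) * j ≤ Q) (hN : 0 < N)
    (hE : Q ≤ E * j * N) (h1 : k * Q * N < a * j * N + Q) (h2 : a * j * N < k * Q * N + Q) :
    Sp (mkSc Q j h hj hh) (10 ^ (2 * E)) (10 ^ (a + E)) := by
  have h3 := ceil_spec Q j k hj
  set b := (k * Q + j - 1) / j with hb
  have h4 : k * Q ≤ (a + E) * j := by
    refine Nat.le_of_mul_le_mul_right ?_ hN
    rw [add_mul, add_mul]; omega
  have h5 : a * j ≤ k * Q + E * j := by
    refine Nat.le_of_mul_le_mul_right ?_ hN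
    rw [add_mul]; omega
  have h6 : b ≤ a + E := by
    refine Nat.lt_succ_iff.1 (Nat.lt_of_mul_lt_mul_right (a := j) ?_)
    rw [Nat.succ_mul]; omega
  have h7 : a ≤ b + E := by
    refine Nat.le_of_mul_le_mul_right ?_ hj
    rw [add_mul]; omega
  have h8 := Sp.single (mkSc Q j h hj hh) k (10 ^ (a + E - b))
  have e : (mkSc Q j h hj hh).β k = b := rfl
  rw [e, ← pow_add, Nat.sub_add_cancel h6, abs_of_nonneg (by positivity)] at h8
  exact h8.mono (pow_le_pow_right₀ (by norm_num) (by omega))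

end Pool.Agent.MP_1c76f0_nt
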